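import Pool.Agent.Helper33.PR.E5Core
import Pool.Agent.Helper8.PR.E4

/-!
# Maps preserving the spectral radius of the skew Lie product: scalars, normalisation
-/

set_option autoImplicit false

namespace PR

open ContinuousLinearMap InnerProductSpace Complex

open scoped ComplexConjugate

section pres

variable {H : Type*} [NormedAddCommGroup H] [InnerProductSpace ℂ H] [CompleteSpace H]
variable {K : Type*} [NormedAddCommGroup K] [InnerProductSpace ℂ K] [CompleteSpace K]
variable {φ : (H →L[ℂ] H) → (K →L[ℂ] K)}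

theorem e_scal_iff (hφ : PresE φ) (hH : Dim2 H) (T : H →L[ℂ] H) : IsScal T ↔ IsScal (φ T) := by
  obtain ⟨π, h1, h2, -⟩ := e_rays hφ hH
  exact E5.scal_iff_of_rays hφ h1 h2 T

theorem e_norm (hφ : PresE φ) (hH : Dim2 H) :
    (∀ S, sr (φ S) = sr S) ∧ (∀ T, ‖φ T - adjoint (φ T)‖ = ‖T - adjoint T‖) := by
  haveI : Nontrivial H := E4.dim2_nontrivial hH
  haveI : Nontrivial K := (E4.relE hφ).nontrivial
  exact E5.norm_of_scal hφ (e_scal_iff hφ hH)

end pres

end PR
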