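import Pool.Agent.Helper28.PR.E1
import Pool.Agent.Helper8.PR.E4A

/-!
# Maps preserving the spectral radius of the skew Lie product: scalars, normalisation (core)
-/

set_option autoImplicit false

namespace PR

open ContinuousLinearMap InnerProductSpace Complex

open scoped ComplexConjugate

namespace E5

section one

variable {H : Type*} [NormedAddCommGroup H] [InnerProductSpace ℂ H] [CompleteSpace H]

theorem adjoint_scalar (z : ℂ) : adjoint (z • (1 : H →L[ℂ] H)) = (conj z) • (1 : H →L[ℂ] H) := by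
  have h2 : adjoint (1 : H →L[ℂ] H) = 1 := star_one _
  rw [map_smulₛₗ, h2]

theorem sr_one [Nontrivial H] : sr (1 : H →L[ℂ] H) = 1 := by
  have h := e_scalar_left (H := H) I 1
  have h' := e_scalar_right (H := H) (I • (1 : H →L[ℂ] H)) 1
  rw [one_smul, h, adjoint_scalar, Complex.conj_I, ← sub_smul, norm_smul, norm_one, Complex.I_im,
    norm_one] at h'
  have h3 : ‖I - -I‖ = 2 := by
    rw [sub_neg_eq_add, ← two_mul, norm_mul, Complex.norm_I]
    simp
  rw [h3, abs_one] at h'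
  linarith

theorem sr_scalar [Nontrivial H] (z : ℂ) : sr (z • (1 : H →L[ℂ] H)) = ‖z‖ := by
  rw [sr_smul, sr_one, mul_one]

theorem norm_sub_adjoint_scalar [Nontrivial H] (z : ℂ) :
    ‖z • (1 : H →L[ℂ] H) - adjoint (z • (1 : H →L[ℂ] H))‖ = 2 * |z.im| := by
  rw [adjoint_scalar, ← sub_smul, norm_smul, norm_one, mul_one, Complex.sub_conj, norm_mul,
    Complex.norm_I, mul_one, Complex.norm_real, Real.norm_eq_abs, abs_mul, abs_two]

theorem sr_real_smul_left (a : ℝ) (P T : H →L[ℂ] H) :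
    sr (skb ((a : ℂ) • P) T) = |a| * sr (skb P T) := by
  have h : skb ((a : ℂ) • P) T = (a : ℂ) • skb P T := by
    unfold skb
    rw [map_smulₛₗ, Complex.conj_ofReal, smul_mul_assoc, mul_smul_comm, smul_sub]
  rw [h, sr_smul, Complex.norm_real, Real.norm_eq_abs]

theorem po_phase {θ : ℂ} (hθ : ‖θ‖ = 1) (u : H) : po (θ • u) (θ • u) = po u u := by
  ext z
  rw [po_apply, po_apply, inner_smul_left, smul_smul]
  congr 1
  have h : conj θ * θ = 1 := by
    rw [Complex.conj_mul', hθ]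
    simp
  calc conj θ * inner ℂ u z * θ = (conj θ * θ) * inner ℂ u z := by ring
    _ = inner ℂ u z := by rw [h, one_mul]

end one

section pres

variable {H : Type*} [NormedAddCommGroup H] [InnerProductSpace ℂ H] [CompleteSpace H]
variable {K : Type*} [NormedAddCommGroup K] [InnerProductSpace ℂ K] [CompleteSpace K]
variable {φ : (H →L[ℂ] H) → (K →L[ℂ] K)}

/-- `e_scal_iff` from a map of unit vectors. -/
theorem scal_iff_of_rays (hφ : PresE φ) {π : H → K}
    (h1 : ∀ x, ‖x‖ = 1 → ‖π x‖ = 1 ∧ ∃ a : ℝ, a ≠ 0 ∧ φ (po x x) = (a : ℂ) • po (π x) (π x))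
    (h2 : ∀ u : K, ‖u‖ = 1 → ∃ x, ‖x‖ = 1 ∧ ∃ θ : ℂ, ‖θ‖ = 1 ∧ u = θ • π x) (T : H →L[ℂ] H) :
    IsScal T ↔ IsScal (φ T) := by
  have key : ∀ x, ‖x‖ = 1 → (sr (skb (po x x) T) = 0 ↔ sr (skb (po (π x) (π x)) (φ T)) = 0) := by
    intro x hx
    obtain ⟨-, a, ha, e⟩ := h1 x hx
    rw [← hφ.pres (po x x) T, e, sr_real_smul_left, mul_eq_zero]
    constructor
    · rintro (h | h)
      · exact absurd (abs_eq_zero.1 h) ha
      · exact h
    · exact fun h => Or.inr h
  rw [← e_scalar_iff, ← e_scalar_iff]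
  constructor
  · intro h u hu
    obtain ⟨x, hx, θ, hθ, rfl⟩ := h2 u hu
    rw [po_phase hθ]
    exact (key x hx).1 (h x hx)
  · intro h x hx
    exact (key x hx).2 (h (π x) (h1 x hx).1)

/-- `e_norm` from `e_scal_iff`. -/
theorem norm_of_scal [Nontrivial H] [Nontrivial K] (hφ : PresE φ)
    (hs : ∀ T : H →L[ℂ] H, IsScal T ↔ IsScal (φ T)) :
    (∀ S, sr (φ S) = sr S) ∧ (∀ T, ‖φ T - adjoint (φ T)‖ = ‖T - adjoint T‖) := by
  obtain ⟨t, ht⟩ := (e_real_iff hφ 1).1 ⟨1, by simp⟩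
  obtain ⟨z0, hz0⟩ := (hs (I • 1)).1 ⟨I, rfl⟩
  have hA : ∀ T : H →L[ℂ] H, |t| * ‖φ T - adjoint (φ T)‖ = ‖T - adjoint T‖ := by
    intro T
    have h := hφ.pres T 1
    rw [ht, e_scalar_right, Complex.norm_real, Real.norm_eq_abs] at h
    have h' := e_scalar_right T 1
    rw [one_smul, norm_one, one_mul] at h'
    rw [h, h']
  have hB : ∀ S : H →L[ℂ] H, |z0.im| * sr (φ S) = sr S := by
    intro S
    have h := hφ.pres (I • 1) S
    rw [hz0, e_scalar_left, e_scalar_left, Complex.I_im, abs_one] at h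
    linarith
  have hC : |z0.im| * |t| = 1 := by
    have h := hB 1
    rwa [ht, sr_scalar, sr_one, Complex.norm_real, Real.norm_eq_abs] at h
  have hD : |z0.im| * ‖z0‖ = 1 := by
    have h := hB (I • 1)
    rwa [hz0, sr_scalar, sr_scalar, Complex.norm_I] at h
  obtain ⟨T, hT⟩ := hφ.surj (I • 1)
  obtain ⟨w, hw⟩ := (hs T).2 ⟨I, hT⟩
  have hE : |t| = |w.im| := by
    have h := hA T
    rw [hT, norm_sub_adjoint_scalar, hw, norm_sub_adjoint_scalar, Complex.I_im, abs_one] at h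
    linarith
  have hF : |z0.im| = ‖w‖ := by
    have h := hB T
    rwa [hT, sr_scalar, hw, sr_scalar, Complex.norm_I, mul_one] at h
  have h1 : |w.im| ≤ ‖w‖ := Complex.abs_im_le_norm w
  have h2 : |z0.im| ≤ ‖z0‖ := Complex.abs_im_le_norm z0
  have h3 : 0 ≤ |z0.im| := abs_nonneg _
  have h4 : 0 ≤ |t| := abs_nonneg _
  have h5 : 0 < |z0.im| := by
    rcases h3.lt_or_eq with h | h
    · exact h
    · rw [← h, zero_mul] at hC
      exact absurd hC zero_ne_one
  have h6 : ‖z0‖ = |t| := mul_left_cancel₀ h5.ne' (hD.trans hC.symm)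
  have h7 : |t| = |z0.im| := le_antisymm (by rw [hE, hF]; exact h1) (by rw [← h6]; exact h2)
  have h8 : |t| = 1 := by
    rw [← h7] at hC
    nlinarith
  have h9 : |z0.im| = 1 := by rw [← h7, h8]
  constructor
  · intro S
    have h := hB S
    rwa [h9, one_mul] at h
  · intro T
    have h := hA T
    rwa [h8, one_mul] at h

end pres

end E5

end PR
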